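import Mathlib

/-!
# A calculus of the uniformly first-order relations, in the language of rings
-/

set_option autoImplicit false

namespace Pool.Agent.Y544.Calc

open FirstOrder FirstOrder.Language FirstOrder.Ring

/-- a relation between the variables which is first-order, uniformly in the ring -/
def Dfn (P : ∀ (M : Type) [CommRing M], (ℕ → M) → Prop) : Prop :=
  ∃ φ : Language.ring.Formula ℕ, ∀ (M : Type) [CommRing M] [CompatibleRing M] (v : ℕ → M),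
    φ.Realize v ↔ P M v

/-- a function of the variables given by a term, uniformly in the ring -/
def Tm (t : ∀ (M : Type) [CommRing M], (ℕ → M) → M) : Prop :=
  ∃ τ : Language.ring.Term ℕ, ∀ (M : Type) [CommRing M] [CompatibleRing M] (v : ℕ → M),
    τ.realize v = t M v

section calculus

variable {s t : ∀ (M : Type) [CommRing M], (ℕ → M) → M}
  {P Q : ∀ (M : Type) [CommRing M], (ℕ → M) → Prop}

theorem Tm.var (i : ℕ) : Tm fun _ _ v => v i := ⟨Term.var i, fun _ _ _ _ => rfl⟩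

theorem Tm.one : Tm fun _ _ _ => 1 := ⟨1, fun _ _ _ _ => realize_one _⟩

theorem Tm.zero : Tm fun _ _ _ => 0 := ⟨0, fun _ _ _ _ => realize_zero _⟩

theorem Tm.add (hs : Tm s) (ht : Tm t) : Tm fun M _ v => s M v + t M v := by
  obtain ⟨σ, hσ⟩ := hs
  obtain ⟨τ, hτ⟩ := ht
  exact ⟨σ + τ, fun M _ _ v => by rw [realize_add, hσ, hτ]⟩

theorem Tm.mul (hs : Tm s) (ht : Tm t) : Tm fun M _ v => s M v * t M v := by
  obtain ⟨σ, hσ⟩ := hs
  obtain ⟨τ, hτ⟩ := ht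
  exact ⟨σ * τ, fun M _ _ v => by rw [realize_mul, hσ, hτ]⟩

theorem Tm.sub (hs : Tm s) (ht : Tm t) : Tm fun M _ v => s M v - t M v := by
  obtain ⟨σ, hσ⟩ := hs
  obtain ⟨τ, hτ⟩ := ht
  exact ⟨σ + -τ, fun M _ _ v => by
    rw [realize_add, realize_neg, hσ, hτ]
    exact (sub_eq_add_neg _ _).symm⟩

theorem Tm.comp (hs : Tm s) (g : ℕ → ℕ) : Tm fun M _ v => s M fun i => v (g i) := by
  obtain ⟨σ, hσ⟩ := hs
  exact ⟨σ.relabel g, fun M _ _ v => by rw [Term.realize_relabel, hσ]; rfl⟩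

theorem Dfn.eq (hs : Tm s) (ht : Tm t) : Dfn fun M _ v => s M v = t M v := by
  obtain ⟨σ, hσ⟩ := hs
  obtain ⟨τ, hτ⟩ := ht
  exact ⟨σ.equal τ, fun M _ _ v => by rw [Formula.realize_equal, hσ, hτ]⟩

theorem Dfn.not (h : Dfn P) : Dfn fun M _ v => ¬ P M v := by
  obtain ⟨φ, hφ⟩ := h
  exact ⟨φ.not, fun M _ _ v => by rw [Formula.realize_not, hφ]⟩

theorem Dfn.and (h : Dfn P) (h' : Dfn Q) : Dfn fun M _ v => P M v ∧ Q M v := by
  obtain ⟨φ, hφ⟩ := h
  obtain ⟨ψ, hψ⟩ := h'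
  exact ⟨φ ⊓ ψ, fun M _ _ v => by rw [Formula.realize_inf, hφ, hψ]⟩

theorem Dfn.or (h : Dfn P) (h' : Dfn Q) : Dfn fun M _ v => P M v ∨ Q M v := by
  obtain ⟨φ, hφ⟩ := h
  obtain ⟨ψ, hψ⟩ := h'
  exact ⟨φ ⊔ ψ, fun M _ _ v => by rw [Formula.realize_sup, hφ, hψ]⟩

theorem Dfn.imp (h : Dfn P) (h' : Dfn Q) : Dfn fun M _ v => (P M v → Q M v) := by
  obtain ⟨φ, hφ⟩ := h
  obtain ⟨ψ, hψ⟩ := h'
  exact ⟨φ.imp ψ, fun M _ _ v => by rw [Formula.realize_imp, hφ, hψ]⟩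

theorem Dfn.ex {Q : ∀ (M : Type) [CommRing M], M → (ℕ → M) → Prop}
    (h : Dfn fun M _ v => Q M (v 0) fun i => v (i + 1)) : Dfn fun M _ v => ∃ a, Q M a v := by
  obtain ⟨φ, hφ⟩ := h
  refine ⟨BoundedFormula.ex (n := 0) (BoundedFormula.relabel (n := 1) (k := 0)
    (fun j : ℕ => Nat.casesOn j (Sum.inr (0 : Fin 1)) Sum.inl) φ), fun M _ _ v => ?_⟩
  unfold Formula.Realize
  rw [BoundedFormula.realize_ex]
  refine exists_congr fun a => ?_
  rw [BoundedFormula.realize_relabel]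
  have h1 : (Sum.elim v (Fin.snoc (default : Fin 0 → M) a ∘ Fin.castAdd 0) ∘
      fun j : ℕ => (Nat.casesOn j (Sum.inr (0 : Fin 1)) Sum.inl : ℕ ⊕ Fin 1)) =
      fun j : ℕ => (Nat.casesOn j a v : M) := by
    funext j
    rcases j with - | j
    · rfl
    · rfl
  rw [h1]
  have h2 := hφ M fun j : ℕ => (Nat.casesOn j a v : M)
  unfold Formula.Realize at h2
  refine Iff.trans ?_ h2
  exact iff_of_eq (congrArg _ (Subsingleton.elim _ _))

theorem Dfn.congr (h : Dfn P) (h' : ∀ (M : Type) [CommRing M] (v : ℕ → M), P M v ↔ Q M v) :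
    Dfn Q := by
  obtain ⟨φ, hφ⟩ := h
  exact ⟨φ, fun M _ _ v => by rw [hφ, h']⟩

theorem Dfn.all {Q : ∀ (M : Type) [CommRing M], M → (ℕ → M) → Prop}
    (h : Dfn fun M _ v => Q M (v 0) fun i => v (i + 1)) : Dfn fun M _ v => ∀ a, Q M a v :=
  (Dfn.ex (Q := fun M _ a v => ¬ Q M a v) h.not).not.congr fun M _ v => by
    push Not
    rfl

end calculus

end Pool.Agent.Y544.Calc
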