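import Pool.Agent.Y544.DG.Calc

/-!
# The polynomials of the same degree
-/

set_option autoImplicit false

namespace Pool.Agent.Y544.DG

open FirstOrder FirstOrder.Language FirstOrder.Ring Pool.Agent.Y544.Calc

section ring

variable {R : Type*} [CommRing R]

/-- a constant -/
def Cst (c : R) : Prop := c = 0 ∨ ∃ y, c * y = 1

/-- `a` is a root of `h` -/
def Rt (t h a : R) : Prop := ∃ q, h = (t - a) * q

/-- all the roots of `h` are simple -/
def Sq (t h : R) : Prop := ∀ a, Cst a → ¬ ∃ q, h = (t - a) * ((t - a) * q)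

/-- `p` gives a bijection from the set of the roots of `h` to the set of the roots of `k` -/
def Bij (t h k p : R) : Prop :=
  (∀ a, Cst a → Rt t h a → ∃ b, Cst b ∧ Rt t k b ∧ Rt t (p - b) a) ∧
  (∀ a a' b, Cst a → Cst a' → Cst b → Rt t h a → Rt t h a' → Rt t (p - b) a →
    Rt t (p - b) a' → a = a') ∧
  (∀ b, Cst b → Rt t k b → ∃ a, Cst a ∧ Rt t h a ∧ Rt t (p - b) a)

/-- equal degrees -/
def EqDeg (f g t : R) : Prop := (f = 0 ∧ g = 0) ∨ (f ≠ 0 ∧ g ≠ 0 ∧ ∃ c d p, Cst c ∧ Cst d ∧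
  f ≠ c ∧ g ≠ d ∧ Sq t (f - c) ∧ Sq t (g - d) ∧ Bij t (f - c) (g - d) p)

end ring

section dfn

variable {s t a b : ∀ (M : Type) [CommRing M], (ℕ → M) → M}

theorem cst (hs : Tm s) : Dfn fun M _ v => Cst (s M v) := by
  unfold Cst
  exact .or (.eq hs .zero) (.ex (.eq (.mul (hs.comp _) (.var _)) .one))

theorem rt (ht : Tm t) (hs : Tm s) (ha : Tm a) : Dfn fun M _ v => Rt (t M v) (s M v) (a M v) := by
  unfold Rt
  exact .ex (.eq (hs.comp _) (.mul (.sub (ht.comp _) (ha.comp _)) (.var _)))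

theorem sq (ht : Tm t) (hs : Tm s) : Dfn fun M _ v => Sq (t M v) (s M v) := by
  unfold Sq
  exact .all (.imp (cst (.var _)) (.not (.ex (.eq (hs.comp _)
    (.mul (.sub (ht.comp _) (.var _)) (.mul (.sub (ht.comp _) (.var _)) (.var _)))))))

theorem bij (ht : Tm t) (hs : Tm s) (ha : Tm a) (hb : Tm b) :
    Dfn fun M _ v => Bij (t M v) (s M v) (a M v) (b M v) := by
  unfold Bij
  refine .and ?_ (.and ?_ ?_)
  · exact .all (.imp (cst (.var _)) (.imp (rt (ht.comp _) (hs.comp _) (.var _))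
      (.ex (.and (cst (.var _)) (.and (rt (ht.comp _) (ha.comp _) (.var _))
        (rt (ht.comp _) (.sub (hb.comp _) (.var _)) (.var _)))))))
  · exact .all (.all (.all (.imp (cst (.var _)) (.imp (cst (.var _)) (.imp (cst (.var _))
      (.imp (rt (ht.comp _) (hs.comp _) (.var _)) (.imp (rt (ht.comp _) (hs.comp _) (.var _))
        (.imp (rt (ht.comp _) (.sub (hb.comp _) (.var _)) (.var _))
          (.imp (rt (ht.comp _) (.sub (hb.comp _) (.var _)) (.var _))
            (.eq (.var _) (.var _)))))))))))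
  · exact .all (.imp (cst (.var _)) (.imp (rt (ht.comp _) (ha.comp _) (.var _))
      (.ex (.and (cst (.var _)) (.and (rt (ht.comp _) (hs.comp _) (.var _))
        (rt (ht.comp _) (.sub (hb.comp _) (.var _)) (.var _)))))))

theorem eqDeg (hs : Tm s) (ha : Tm a) (ht : Tm t) :
    Dfn fun M _ v => EqDeg (s M v) (a M v) (t M v) := by
  unfold EqDeg
  exact .or (.and (.eq hs .zero) (.eq ha .zero)) (.and (.not (.eq hs .zero))
    (.and (.not (.eq ha .zero)) (.ex (.ex (.ex (.and (cst (.var _)) (.and (cst (.var _))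
      (.and (.not (.eq (hs.comp _) (.var _))) (.and (.not (.eq (ha.comp _) (.var _)))
        (.and (sq (ht.comp _) (.sub (hs.comp _) (.var _)))
          (.and (sq (ht.comp _) (.sub (ha.comp _) (.var _)))
            (bij (ht.comp _) (.sub (hs.comp _) (.var _)) (.sub (ha.comp _) (.var _))
              (.var _)))))))))))))

end dfn

/-- the formula -/
theorem exists_formula : ∃ φ : Language.ring.Formula (Fin 3),
    ∀ (M : Type) [CommRing M] [CompatibleRing M] (f g t : M),
      φ.Realize ![f, g, t] ↔ EqDeg f g t := by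
  obtain ⟨φ, hφ⟩ := eqDeg (Tm.var 0) (Tm.var 1) (Tm.var 2)
  refine ⟨φ.relabel fun i => if i = 0 then 0 else if i = 1 then 1 else 2, fun M _ _ f g t => ?_⟩
  rw [Formula.realize_relabel, hφ]
  rfl

open Polynomial

variable {K : Type*} [Field K]

theorem cst_iff (c : K[X]) : Cst c ↔ ∃ k, c = C k := by
  constructor
  · rintro (h | ⟨y, hy⟩)
    · exact ⟨0, by rw [h, C_0]⟩
    · obtain ⟨k, -, hk⟩ := Polynomial.isUnit_iff.1 (IsUnit.of_mul_eq_one y hy)
      exact ⟨k, hk.symm⟩
  · rintro ⟨k, rfl⟩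
    by_cases h : k = 0
    · left
      rw [h, C_0]
    · right
      exact ⟨C k⁻¹, by rw [← C_mul, mul_inv_cancel₀ h, C_1]⟩

theorem rt_iff (h : K[X]) (a : K) : Rt X h (C a) ↔ h.eval a = 0 := by
  rw [← IsRoot.def, ← dvd_iff_isRoot]
  rfl

theorem rt_iff' (p : K[X]) (a b : K) : Rt X (p - C b) (C a) ↔ p.eval a = b := by
  rw [rt_iff, eval_sub, eval_C, sub_eq_zero]

variable [IsAlgClosed K]

open scoped Classical

/-- the number of the roots -/
theorem card_roots {h : K[X]} (hsq : Sq X h) :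
    h.roots.toFinset.card = h.natDegree := by
  rw [Multiset.toFinset_card_of_nodup, IsAlgClosed.card_roots_eq_natDegree]
  rw [Multiset.nodup_iff_count_le_one]
  intro a
  rw [count_roots]
  by_contra hcon
  push Not at hcon
  have h1 : (X - C a) ^ 2 ∣ h := (pow_dvd_pow _ hcon).trans (pow_rootMultiplicity_dvd h a)
  obtain ⟨q, hq⟩ := h1
  refine hsq (C a) ((cst_iff _).2 ⟨a, rfl⟩) ⟨q, ?_⟩
  rw [hq]
  ring

omit [IsAlgClosed K] in
theorem mem_roots' {h : K[X]} (h0 : h ≠ 0) (a : K) : a ∈ h.roots.toFinset ↔ h.eval a = 0 := by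
  rw [Multiset.mem_toFinset, mem_roots h0, IsRoot.def]

theorem card_eq_of_bij {h k p : K[X]} (h0 : h ≠ 0) (k0 : k ≠ 0) (hp : Bij X h k p) :
    h.roots.toFinset.card = k.roots.toFinset.card := by
  obtain ⟨h1, h2, h3⟩ := hp
  have hc : ∀ a : K, Cst (C a) := fun a => (cst_iff _).2 ⟨a, rfl⟩
  refine Finset.card_bij (fun a _ => p.eval a) (fun a ha => ?_) (fun a ha a' ha' haa => ?_)
    fun b hb => ?_
  · rw [mem_roots' h0] at ha
    obtain ⟨b, hb, hb1, hb2⟩ := h1 (C a) (hc a) ((rt_iff _ _).2 ha)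
    obtain ⟨b, rfl⟩ := (cst_iff _).1 hb
    rw [rt_iff] at hb1
    rw [rt_iff'] at hb2
    rw [mem_roots' k0, hb2, hb1]
  · rw [mem_roots' h0] at ha ha'
    have h4 := h2 (C a) (C a') (C (p.eval a)) (hc _) (hc _) (hc _) ((rt_iff _ _).2 ha)
      ((rt_iff _ _).2 ha') ((rt_iff' _ _ _).2 rfl) ((rt_iff' _ _ _).2 haa.symm)
    exact C_injective h4
  · rw [mem_roots' k0] at hb
    obtain ⟨a, ha, ha1, ha2⟩ := h3 (C b) (hc b) ((rt_iff _ _).2 hb)
    obtain ⟨a, rfl⟩ := (cst_iff _).1 ha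
    rw [rt_iff] at ha1
    rw [rt_iff'] at ha2
    exact ⟨a, (mem_roots' h0 a).2 ha1, ha2⟩

theorem bij_of_card {h k : K[X]} (h0 : h ≠ 0) (k0 : k ≠ 0)
    (hcard : h.roots.toFinset.card = k.roots.toFinset.card) : ∃ p, Bij X h k p := by
  have hc : ∀ a : K, Cst (C a) := fun a => (cst_iff _).2 ⟨a, rfl⟩
  obtain ⟨e⟩ : Nonempty (h.roots.toFinset ≃ k.roots.toFinset) :=
    ⟨Finset.equivOfCardEq hcard⟩
  let r : K → K := fun a => if ha : a ∈ h.roots.toFinset then (e ⟨a, ha⟩ : K) else 0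
  have hp : ∀ a (ha : a ∈ h.roots.toFinset),
      (Lagrange.interpolate h.roots.toFinset id r).eval a = e ⟨a, ha⟩ := by
    intro a ha
    have h1 := Lagrange.eval_interpolate_at_node r (s := h.roots.toFinset) (v := id)
      (Set.injOn_id _) ha
    rw [id] at h1
    rw [h1]
    show (if ha : a ∈ h.roots.toFinset then (e ⟨a, ha⟩ : K) else 0) = _
    rw [dif_pos ha]
  refine ⟨Lagrange.interpolate h.roots.toFinset id r, fun a ha har => ?_,
    fun a a' b ha ha' hb har har' hv hv' => ?_, fun b hb hbr => ?_⟩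
  · obtain ⟨a, rfl⟩ := (cst_iff _).1 ha
    rw [rt_iff] at har
    have ham := (mem_roots' h0 a).2 har
    refine ⟨C (e ⟨a, ham⟩ : K), hc _, (rt_iff _ _).2 ?_, (rt_iff' _ _ _).2 (hp a ham)⟩
    exact (mem_roots' k0 _).1 (e ⟨a, ham⟩).2
  · obtain ⟨a, rfl⟩ := (cst_iff _).1 ha
    obtain ⟨a', rfl⟩ := (cst_iff _).1 ha'
    obtain ⟨b, rfl⟩ := (cst_iff _).1 hb
    rw [rt_iff] at har har'
    rw [rt_iff'] at hv hv'
    have ham := (mem_roots' h0 a).2 har
    have ham' := (mem_roots' h0 a').2 har'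
    rw [hp a ham] at hv
    rw [hp a' ham'] at hv'
    have h1 : e ⟨a, ham⟩ = e ⟨a', ham'⟩ := Subtype.ext (hv.trans hv'.symm)
    have h2 := congrArg Subtype.val (e.injective h1)
    exact congrArg C h2
  · obtain ⟨b, rfl⟩ := (cst_iff _).1 hb
    rw [rt_iff] at hbr
    have hbm := (mem_roots' k0 b).2 hbr
    obtain ⟨⟨a, ha⟩, hab⟩ := e.surjective ⟨b, hbm⟩
    refine ⟨C a, hc _, (rt_iff _ _).2 ((mem_roots' h0 a).1 ha), (rt_iff' _ _ _).2 ?_⟩
    rw [hp a ha, hab]

theorem exists_shift [CharZero K] {f : K[X]} (hf : f ≠ 0) :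
    ∃ c : K, f ≠ C c ∧ Sq X (f - C c) := by
  by_cases hd : f.natDegree = 0
  · obtain ⟨k, hk⟩ := natDegree_eq_zero.1 hd
    have hk0 : k ≠ 0 := by
      rintro rfl
      rw [C_0] at hk
      exact hf hk.symm
    refine ⟨0, by rwa [C_0], ?_⟩
    rintro a ha ⟨q, hq⟩
    rw [C_0, sub_zero, ← hk] at hq
    obtain ⟨a, rfl⟩ := (cst_iff _).1 ha
    have h1 := congrArg (eval a) hq
    simp only [eval_C, eval_mul, eval_sub, eval_X, sub_self, zero_mul] at h1
    exact hk0 h1
  · have hd' : derivative f ≠ 0 := by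
      intro h
      exact hd (derivative_eq_zero.1 h)
    have hfin : Set.Finite ((fun a => f.eval a) '' {a | (derivative f).eval a = 0}) := by
      refine Set.Finite.image _ ?_
      refine ((derivative f).roots.toFinset.finite_toSet).subset fun a ha => ?_
      exact (mem_roots' hd' a).2 ha
    obtain ⟨c, hc⟩ := hfin.infinite_compl.nonempty
    refine ⟨c, ?_, ?_⟩
    · rintro h
      rw [h, natDegree_C] at hd
      exact hd rfl
    · rintro a ha ⟨q, hq⟩
      obtain ⟨a, rfl⟩ := (cst_iff _).1 ha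
      apply hc
      refine ⟨a, ?_, ?_⟩
      · have h1 := congrArg (fun u => eval a (derivative u)) hq
        simp only [derivative_sub, derivative_C, sub_zero, derivative_mul, derivative_X, eval_add,
          eval_mul, eval_sub, eval_X, eval_C, sub_self, zero_mul, mul_zero, add_zero] at h1
        exact h1
      · have h1 := congrArg (eval a) hq
        simp only [eval_mul, eval_sub, eval_X, eval_C, sub_self, zero_mul] at h1
        exact sub_eq_zero.1 h1

theorem eqDeg_iff [CharZero K] (f g : K[X]) : EqDeg f g X ↔ f.degree = g.degree := by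
  constructor
  · rintro (⟨hf, hg⟩ | ⟨hf, hg, c, d, p, hc, hd, hfc, hgd, hf', hg', hp⟩)
    · rw [hf, hg]
    · obtain ⟨c, rfl⟩ := (cst_iff _).1 hc
      obtain ⟨d, rfl⟩ := (cst_iff _).1 hd
      have h1 := card_eq_of_bij (sub_ne_zero.2 hfc) (sub_ne_zero.2 hgd) hp
      rw [card_roots hf', card_roots hg',
        natDegree_sub_C, natDegree_sub_C] at h1
      rw [degree_eq_natDegree hf, degree_eq_natDegree hg, h1]
  · intro h
    by_cases hf : f = 0
    · left
      refine ⟨hf, ?_⟩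
      rw [hf, degree_zero] at h
      exact degree_eq_bot.1 h.symm
    · have hg : g ≠ 0 := by
        intro h0
        rw [h0, degree_zero] at h
        exact hf (degree_eq_bot.1 h)
      right
      obtain ⟨c, hfc, hf'⟩ := exists_shift hf
      obtain ⟨d, hgd, hg'⟩ := exists_shift hg
      obtain ⟨p, hp⟩ := bij_of_card (sub_ne_zero.2 hfc) (sub_ne_zero.2 hgd) (by
        rw [card_roots hf', card_roots hg',
          natDegree_sub_C, natDegree_sub_C]
        exact natDegree_eq_of_degree_eq h)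
      exact ⟨hf, hg, C c, C d, p, (cst_iff _).2 ⟨c, rfl⟩, (cst_iff _).2 ⟨d, rfl⟩, hfc, hgd, hf',
        hg', hp⟩

end Pool.Agent.Y544.DG
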